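import Pool.Agent.W23.UG.Defs

/-! UG-TUPG: the telescoping step with the roles exchanged. -/

set_option autoImplicit false

namespace Pool.Agent.W135.UG

open Finset Polynomial
open Pool.Agent.H373R2.T7
open Pool.Agent.W23.UL Pool.Agent.W23.UG

theorem TUPG : St_TUPG := by
  classical
  intro P Q hBIL hP0 hPle hPneg hQ0 hQle k f hd hl B hB U
  have hbl := fun i => hBIL (f i) (hd i) (hl i) B hB (U + k + 2)
  choose B0 hB0 using hbl
  refine ⟨univ.sup B0 + 1, fun E => ?_⟩
  have hE := fun i => hB0 i E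
  choose N0 hN0 using hE
  set Dm : ℕ := univ.sup (fun i => (f i).natDegree) with hDm
  set c1 : ℕ := B + univ.sup (fun i => cf (f i)) with hc1
  obtain ⟨n2, h2⟩ := ev_L' (max (max (Real.log c1 + 1) ((Dm : ℝ) ^ (univ.sup B0) + 1))
    ((k : ℝ) * ((Dm + 1) * B) ^ k + 1))
  obtain ⟨n3, h3⟩ := Vz_inv_small E
  refine ⟨max (max (univ.sup N0) n2) (max n3 3), fun x hx z hz1 hz2 g hg => ?_⟩
  have b1 := le_trans (le_trans (le_max_left _ _) (le_max_left _ _)) hx
  have b2 := le_trans (le_trans (le_max_right _ _) (le_max_left _ _)) hx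
  have b3 := le_trans (le_trans (le_max_left _ _) (le_max_right _ _)) hx
  have hx3 : 3 ≤ x := le_trans (le_trans (le_max_right _ _) (le_max_right _ _)) hx
  have hxr : (3 : ℝ) ≤ x := by exact_mod_cast hx3
  have hx0 : (0 : ℝ) < x := by linarith
  have hL := h2 x b2
  set L := Real.log x with hLd
  have hLa : Real.log c1 + 1 ≤ L := ((le_max_left _ _).trans (le_max_left _ _)).trans hL
  have hLc : (Dm : ℝ) ^ (univ.sup B0) + 1 ≤ L :=
    ((le_max_right _ _).trans (le_max_left _ _)).trans hL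
  have hLb : (k : ℝ) * ((Dm + 1) * B) ^ k + 1 ≤ L := (le_max_right _ _).trans hL
  have hBr : (1 : ℝ) ≤ B := by exact_mod_cast hB
  have hc1r : (1 : ℝ) ≤ c1 := by
    rw [hc1]
    push_cast
    have := Nat.cast_nonneg (α := ℝ) (univ.sup (fun i => cf (f i)))
    linarith
  have hlc1 : 0 ≤ Real.log c1 := Real.log_nonneg hc1r
  have hL1 : 1 ≤ L := by linarith
  have hL0 : 0 < L := by linarith
  have hz : 1 ≤ z := by
    have : (1 : ℝ) ≤ z := (one_le_pow₀ hL1).trans hz1
    exact_mod_cast this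
  have hV := h3 x b3 z hz hz2
  have hDi : ∀ i, (f i).natDegree ≤ Dm := fun i =>
    le_sup (f := fun i => (f i).natDegree) (mem_univ i)
  have hx1 : ∀ i, 1 ≤ B * x ^ (f i).natDegree := fun i =>
    Nat.mul_pos hB (pow_pos (by omega) _)
  -- the size of the arguments
  have hup : ∀ i, ∀ n ∈ Icc 1 x, ∀ v ∈ Icc 1 (B * x ^ (f i).natDegree),
      (((v : ℤ) - (f i).eval (n : ℤ) : ℤ) : ℝ) ≤ c1 * (x : ℝ) ^ (f i).natDegree := by
    intro i n hn v hv
    rw [mem_Icc] at hn hv
    have h4 := (abs_le.1 (abs_eval_le (f i) n hn.1)).1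
    have h5 : cf (f i) * n ^ (f i).natDegree ≤
        univ.sup (fun i => cf (f i)) * x ^ (f i).natDegree :=
      Nat.mul_le_mul (le_sup (f := fun i => cf (f i)) (mem_univ i)) (Nat.pow_le_pow_left hn.2 _)
    have h6 : ((v : ℤ) - (f i).eval (n : ℤ)) ≤ ((c1 * x ^ (f i).natDegree : ℕ) : ℤ) := by
      have h7 : ((cf (f i) * n ^ (f i).natDegree : ℕ) : ℤ) ≤
        ((univ.sup (fun i => cf (f i)) * x ^ (f i).natDegree : ℕ) : ℤ) := by exact_mod_cast h5
      have h8 : (v : ℤ) ≤ ((B * x ^ (f i).natDegree : ℕ) : ℤ) := by exact_mod_cast hv.2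
      have h9 : ((c1 * x ^ (f i).natDegree : ℕ) : ℤ) = ((B * x ^ (f i).natDegree : ℕ) : ℤ) +
          ((univ.sup (fun i => cf (f i)) * x ^ (f i).natDegree : ℕ) : ℤ) := by
        rw [hc1]; push_cast; ring
      rw [h9]
      have h10 : ((cf (f i) * n ^ (f i).natDegree : ℕ) : ℤ) =
        (cf (f i) : ℤ) * (n : ℤ) ^ (f i).natDegree := by push_cast; ring
      rw [h10] at h7
      linarith
    have h7 : (((v : ℤ) - (f i).eval (n : ℤ) : ℤ) : ℝ) ≤
        (((c1 * x ^ (f i).natDegree : ℕ) : ℤ) : ℝ) := by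
      exact_mod_cast h6
    push_cast at h7 ⊢
    exact h7
  have hDL : (1 : ℝ) ≤ Dm + 1 := by
    have := Nat.cast_nonneg (α := ℝ) Dm
    linarith
  have hlogi : ∀ i, Real.log (c1 * (x : ℝ) ^ (f i).natDegree) ≤ (Dm + 1) * L := by
    intro i
    rw [Real.log_mul (by linarith) (by positivity), Real.log_pow]
    have h4 : ((f i).natDegree : ℝ) ≤ Dm := by exact_mod_cast hDi i
    nlinarith
  have hPL : ∀ i, ∀ n ∈ Icc 1 x, ∀ v ∈ Icc 1 (B * x ^ (f i).natDegree),
      |P z ((v : ℤ) - (f i).eval (n : ℤ))| ≤ (Dm + 1) * L := by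
    intro i n hn v hv
    rw [abs_of_nonneg (hP0 _ _)]
    rcases le_or_gt ((v : ℤ) - (f i).eval (n : ℤ)) 0 with h | h
    · rw [hPneg z _ h]; positivity
    · refine (hPle z _ h).trans ((Real.log_le_log (by exact_mod_cast h) ?_).trans (hlogi i))
      exact hup i n hn v hv
  have key := tele x (fun i => B * x ^ (f i).natDegree) hx1
    (fun i n v => P z ((v : ℤ) - (f i).eval (n : ℤ)))
    (fun i n v => Q z ((v : ℤ) - (f i).eval (n : ℤ)))
    ((Dm + 1) * L) (x / L ^ (U + k + 2)) (by nlinarith) (by positivity) hPL (by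
      intro i n hn v hv
      rw [abs_of_nonneg (hQ0 _ _)]
      have := hQle z ((v : ℤ) - (f i).eval (n : ℤ))
      nlinarith) (by
      intro i K hK G hG
      have hNi : N0 i ≤ x ^ (f i).natDegree :=
        ((le_sup (f := N0) (mem_univ i)).trans b1).trans
          (Nat.le_self_pow (by have := hd i; omega) x)
      have hlogN : Real.log ((x ^ (f i).natDegree : ℕ) : ℝ) = (f i).natDegree * L := by
        push_cast
        rw [Real.log_pow]
      have hd1 : (1 : ℝ) ≤ (f i).natDegree := by exact_mod_cast hd i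
      have hdD : ((f i).natDegree : ℝ) ≤ Dm := by exact_mod_cast hDi i
      have hLN : L ≤ (f i).natDegree * L := by nlinarith
      have h4 := hN0 i (x ^ (f i).natDegree) hNi x (Nat.le_mul_of_pos_left _ (by omega))
        (Nat.le_mul_of_pos_left _ (by omega)) (B * x ^ (f i).natDegree) le_rfl z (by
          rw [hlogN, mul_pow]
          have e1 : ((f i).natDegree : ℝ) ^ B0 i ≤ L := by
            calc ((f i).natDegree : ℝ) ^ B0 i ≤ (Dm : ℝ) ^ B0 i :=
                  pow_le_pow_left₀ (by linarith) hdD _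
              _ ≤ (Dm : ℝ) ^ (univ.sup B0) :=
                  pow_le_pow_right₀ (hd1.trans hdD) (le_sup (f := B0) (mem_univ i))
              _ ≤ L := by linarith
          have e2 : L ^ B0 i ≤ L ^ univ.sup B0 :=
            pow_le_pow_right₀ hL1 (le_sup (f := B0) (mem_univ i))
          calc ((f i).natDegree : ℝ) ^ B0 i * L ^ B0 i ≤ L * L ^ univ.sup B0 :=
                mul_le_mul e1 e2 (by positivity) hL0.le
            _ = L ^ (univ.sup B0 + 1) := by rw [pow_succ]; ring
            _ ≤ z := hz1)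
        (by
          rw [hlogN]
          exact hz2.trans (pow_le_pow_left₀ hL0.le hLN _)) (-1) (Or.inr rfl)
      have h5 := l1_of_bil' (B * x ^ (f i).natDegree) x
        (fun v n => P z ((v : ℤ) - (f i).eval (n : ℤ)) - Q z ((v : ℤ) - (f i).eval (n : ℤ)))
        ((x : ℝ) ^ (f i).natDegree * x / L ^ (U + k + 2)) K hK (by
          intro G c hG hc
          have h6 := h4 G c hG hc
          simp only [neg_one_mul, ← sub_eq_add_neg] at h6
          refine h6.trans ?_
          rw [hlogN]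
          push_cast
          have e3 : L ^ (U + k + 2) ≤ ((f i).natDegree * L) ^ (U + k + 2) :=
            pow_le_pow_left₀ hL0.le hLN _
          gcongr) G hG
      refine h5.trans ?_
      have e4 : (x : ℝ) ^ (f i).natDegree * x / L ^ (U + k + 2) ≤
          x / L ^ (U + k + 2) * ((B * x ^ (f i).natDegree : ℕ) : ℝ) := by
        push_cast
        have e5 : 0 ≤ (x : ℝ) ^ (f i).natDegree * x / L ^ (U + k + 2) := by positivity
        calc (x : ℝ) ^ (f i).natDegree * x / L ^ (U + k + 2)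
            ≤ B * ((x : ℝ) ^ (f i).natDegree * x / L ^ (U + k + 2)) := by nlinarith
          _ = _ := by ring
      exact mul_le_mul_of_nonneg_left e4 hK.le)
    univ 1 one_pos (fun n _ => g n) (by
      intro n hn m _
      exact hg n) (by
      intro n m v i _; rfl)
  refine key.trans ?_
  rw [card_univ, Fintype.card_fin]
  push_cast
  rw [prod_mul_distrib, prod_const, card_univ, Fintype.card_fin]
  have hprod : 0 ≤ ∏ i, ((x : ℝ) ^ (f i).natDegree) := prod_nonneg fun _ _ => by positivity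
  calc (k : ℝ) * (1 * ((Dm + 1) * L) ^ k * (x / L ^ (U + k + 2))) *
        ((B : ℝ) ^ k * ∏ i, ((x : ℝ) ^ (f i).natDegree))
      = ((k : ℝ) * ((Dm + 1) * B) ^ k / L ^ 2) *
          (x * (∏ i, ((x : ℝ) ^ (f i).natDegree)) / L ^ U) := by
        rw [mul_pow, mul_pow, pow_add, pow_add]
        field_simp
    _ ≤ 1 * (x * (∏ i, ((x : ℝ) ^ (f i).natDegree)) / L ^ U) := by
        apply mul_le_mul_of_nonneg_right _ (by positivity)
        rw [div_le_one (by positivity)]
        nlinarith
    _ = _ := one_mul _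

end Pool.Agent.W135.UG
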